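import Pool.Agent.U50.MC.Stm

/-!
# Project MC, package COC: the coboundary of the formal sum `∑ W a b * dig a * dig b`
-/

set_option autoImplicit false

namespace Pool.Agent.U2.MC

open MeasureTheory Filter
open Pool.Agent.U50.MC

/-- the finite part of the formal sum -/
noncomputable def FK {Ω : Type} (dig : ℕ → Ω → ℕ) (W : ℕ → ℕ → ZMod 3) (K : ℕ) (x : Ω) : ZMod 3 :=
  ∑ a ∈ Finset.range K, ∑ b ∈ Finset.range K, W a b * ((dig a x : ZMod 3) * (dig b x : ZMod 3))

lemma ev_const {Ω : Type} (dig : ℕ → Ω → ℕ) (W : ℕ → ℕ → ZMod 3)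
    (h1 : ∀ i, {j | W i j ≠ 0}.Finite) (h2 : ∀ j, {i | W i j ≠ 0}.Finite) (x x' : Ω)
    (hx : {r | dig r x' ≠ dig r x}.Finite) :
    ∃ z : ZMod 3, ∀ᶠ K in atTop, FK dig W K x' - FK dig W K x = z := by
  set D := {r | dig r x' ≠ dig r x} with hD
  -- a bound for all the relevant indices
  obtain ⟨K₀, hK₀⟩ : ∃ K₀ : ℕ, ∀ a b, W a b ≠ 0 → (a ∈ D ∨ b ∈ D) → a < K₀ ∧ b < K₀ := by
    have hA : (⋃ a ∈ D, {b | W a b ≠ 0}).Finite := hx.biUnion fun a _ => h1 a
    have hB : (⋃ b ∈ D, {a | W a b ≠ 0}).Finite := hx.biUnion fun b _ => h2 b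
    obtain ⟨m, hm⟩ := ((hA.union hB).union hx).bddAbove
    refine ⟨m + 1, fun a b hW hab => ?_⟩
    rcases hab with ha | hb
    · have e1 : a ≤ m := hm (Or.inr ha)
      have e2 : b ≤ m := hm (Or.inl (Or.inl (Set.mem_biUnion ha hW)))
      omega
    · have e1 : b ≤ m := hm (Or.inr hb)
      have e2 : a ≤ m := hm (Or.inl (Or.inr (Set.mem_biUnion hb hW)))
      omega
  refine ⟨FK dig W K₀ x' - FK dig W K₀ x, ?_⟩
  filter_upwards [eventually_ge_atTop K₀] with K hK
  have hz : ∀ a b, ¬ (a < K₀ ∧ b < K₀) →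
      W a b * ((dig a x' : ZMod 3) * (dig b x' : ZMod 3)) -
      W a b * ((dig a x : ZMod 3) * (dig b x : ZMod 3)) = 0 := by
    intro a b hab
    by_cases hW : W a b = 0
    · rw [hW]; ring
    · have hn : ¬ (a ∈ D ∨ b ∈ D) := fun h => hab (hK₀ a b hW h)
      rw [not_or] at hn
      have ea : dig a x' = dig a x := by
        by_contra h; exact hn.1 h
      have eb : dig b x' = dig b x := by
        by_contra h; exact hn.2 h
      rw [ea, eb, sub_self]
  have e : ∀ L, FK dig W L x' - FK dig W L x =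
      ∑ a ∈ Finset.range L, ∑ b ∈ Finset.range L,
        (W a b * ((dig a x' : ZMod 3) * (dig b x' : ZMod 3)) -
          W a b * ((dig a x : ZMod 3) * (dig b x : ZMod 3))) := by
    intro L
    unfold FK
    rw [← Finset.sum_sub_distrib]
    refine Finset.sum_congr rfl fun a _ => ?_
    rw [← Finset.sum_sub_distrib]
  rw [e, e]
  symm
  have hsub : Finset.range K₀ ⊆ Finset.range K := Finset.range_subset_range.2 hK
  calc ∑ a ∈ Finset.range K₀, ∑ b ∈ Finset.range K₀,
        (W a b * ((dig a x' : ZMod 3) * (dig b x' : ZMod 3)) -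
          W a b * ((dig a x : ZMod 3) * (dig b x : ZMod 3)))
      = ∑ a ∈ Finset.range K₀, ∑ b ∈ Finset.range K,
        (W a b * ((dig a x' : ZMod 3) * (dig b x' : ZMod 3)) -
          W a b * ((dig a x : ZMod 3) * (dig b x : ZMod 3))) := by
        refine Finset.sum_congr rfl fun a _ => Finset.sum_subset hsub fun b _ hb => hz a b ?_
        rintro ⟨-, h⟩
        exact hb (Finset.mem_range.2 h)
    _ = _ := by
        refine Finset.sum_subset hsub fun a _ ha => Finset.sum_eq_zero fun b _ => hz a b ?_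
        rintro ⟨h, -⟩
        exact ha (Finset.mem_range.2 h)

lemma three : ∀ z : ZMod 3, z = 0 ∨ z = 1 ∨ z = 2 := by decide

theorem t_COC : S_COC := by
  intro Ω _ μ _ T dig hT hdig hshift hgood W h1 h2 h3
  classical
  -- the finite coboundaries
  set cK : ℕ → Ω → ZMod 3 := fun K x => FK dig W K (T x) - FK dig W K x with hcK
  have hdm : ∀ r, Measurable fun x => (dig r x : ZMod 3) := fun r =>
    (measurable_from_top (f := fun n : ℕ => (n : ZMod 3))).comp (hdig r)
  have hset : ∀ (K : ℕ) (z : ZMod 3), MeasurableSet {x | cK K x = z} := by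
    intro K z
    -- `cK K` depends only on the digits of `x` and `T x` with index less than `K`
    let φ : (Fin K → ℕ) × (Fin K → ℕ) → ZMod 3 := fun p =>
      (∑ a : Fin K, ∑ b : Fin K, W a b * ((p.1 a : ZMod 3) * (p.1 b : ZMod 3))) -
      ∑ a : Fin K, ∑ b : Fin K, W a b * ((p.2 a : ZMod 3) * (p.2 b : ZMod 3))
    have hφ : Measurable φ := measurable_of_countable φ
    have hψ : Measurable fun x : Ω => ((fun r : Fin K => dig r (T x), fun r : Fin K => dig r x) :
        (Fin K → ℕ) × (Fin K → ℕ)) :=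
      (measurable_pi_lambda (fun (x : Ω) (r : Fin K) => dig r (T x)) fun r =>
        (hdig r).comp hT.measurable).prodMk
        (measurable_pi_lambda (fun (x : Ω) (r : Fin K) => dig r x) fun r => hdig r)
    have he : cK K = φ ∘ fun x : Ω => ((fun r : Fin K => dig r (T x), fun r : Fin K => dig r x) :
        (Fin K → ℕ) × (Fin K → ℕ)) := by
      funext x
      simp only [hcK, φ, Function.comp, FK, Finset.sum_range]
    have : Measurable (cK K) := by rw [he]; exact hφ.comp hψ
    exact this (measurableSet_singleton z)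
  have hP : ∀ z : ZMod 3, MeasurableSet {x | ∀ᶠ K in atTop, cK K x = z} := by
    intro z
    have : {x | ∀ᶠ K in atTop, cK K x = z} = ⋃ K₀ : ℕ, ⋂ K : ℕ, ⋂ _ : K₀ ≤ K, {x | cK K x = z} := by
      ext x
      simp only [Set.mem_ofPred_eq, eventually_atTop, Set.mem_iUnion, Set.mem_iInter]
    rw [this]
    exact MeasurableSet.iUnion fun K₀ => MeasurableSet.iInter fun K => MeasurableSet.iInter fun _ =>
      hset K z
  set c : Ω → ZMod 3 := fun x =>
    if ∀ᶠ K in atTop, cK K x = 1 then 1 else if ∀ᶠ K in atTop, cK K x = 2 then 2 else 0 with hc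
  have hcm : Measurable c :=
    Measurable.ite (hP 1) measurable_const (Measurable.ite (hP 2) measurable_const measurable_const)
  have hcv : ∀ x, (∃ z, ∀ᶠ K in atTop, cK K x = z) → ∀ᶠ K in atTop, cK K x = c x := by
    rintro x ⟨z, hz⟩
    have huniq : ∀ z', (∀ᶠ K in atTop, cK K x = z') → z' = z := by
      intro z' hz'
      obtain ⟨K, hK⟩ := (hz.and hz').exists
      rw [← hK.1, hK.2]
    have hcases : z = 0 ∨ z = 1 ∨ z = 2 := three z
    suffices c x = z by rw [this]; exact hz
    simp only [hc]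
    rcases hcases with h | h | h
    · subst h
      rw [if_neg, if_neg]
      · intro h
        exact absurd (huniq 2 h) (by decide)
      · intro h
        exact absurd (huniq 1 h) (by decide)
    · subst h
      rw [if_pos hz]
    · subst h
      rw [if_neg, if_pos hz]
      intro h
      exact absurd (huniq 1 h) (by decide)
  refine ⟨c, hcm, ?_⟩
  filter_upwards [hgood] with x hx i j hij hi hj
  -- telescoping
  have hfin : ∀ m n : ℕ, {r | dig r ((T ^ m) x) ≠ dig r ((T ^ n) x)}.Finite := by
    intro m n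
    refine ((hx m).union (hx n)).subset fun r hr => ?_
    by_contra hcon
    simp only [Set.mem_union, Set.mem_ofPred_eq, not_or, not_not] at hcon
    exact hr (hcon.1.trans hcon.2.symm)
  have hstep : ∀ t : ℕ, ∀ᶠ K in atTop,
      FK dig W K ((T ^ (t + 1)) x) - FK dig W K ((T ^ t) x) = c ((T ^ t) x) := by
    intro t
    have h4 := ev_const dig W h1 h2 ((T ^ t) x) ((T ^ (t + 1)) x) (hfin (t + 1) t)
    have e1 : ∀ K, cK K ((T ^ t) x) = FK dig W K ((T ^ (t + 1)) x) - FK dig W K ((T ^ t) x) := by
      intro K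
      simp only [hcK]
      rw [pow_succ']
      rfl
    have h5 := hcv ((T ^ t) x) (by simpa only [e1] using h4)
    simpa only [e1] using h5
  have htel : ∀ n : ℕ, ∀ᶠ K in atTop,
      ∑ t ∈ Finset.range n, c ((T ^ t) x) = FK dig W K ((T ^ n) x) - FK dig W K x := by
    intro n
    induction n with
    | zero => exact Eventually.of_forall fun K => by simp
    | succ n ih =>
      filter_upwards [ih, hstep n] with K hK1 hK2
      rw [Finset.sum_range_succ, hK1, ← hK2]
      ring
  obtain ⟨K, ⟨hK1, hK2⟩, hK3⟩ :=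
    (((htel (nn i j)).and (htel (2 * nn i j))).and (eventually_gt_atTop j)).exists
  rw [hK1, hK2]
  have s1 : ∀ r, dig r ((T ^ nn i j) x) = dig r x + if r = i ∨ r = j then 1 else 0 := by
    intro r
    have := hshift i j hij x hi hj 1 (Or.inl rfl) r
    rwa [one_mul] at this
  have s2 : ∀ r, dig r ((T ^ (2 * nn i j)) x) = dig r x + if r = i ∨ r = j then 2 else 0 :=
    fun r => hshift i j hij x hi hj 2 (Or.inr rfl) r
  have h30 : (3 : ZMod 3) = 0 := by decide
  set δ : ℕ → ZMod 3 := fun r => if r = i ∨ r = j then 1 else 0 with hδ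
  have t1 : ∀ r, (dig r ((T ^ nn i j) x) : ZMod 3) = (dig r x : ZMod 3) + δ r := by
    intro r
    rw [s1 r]
    simp only [hδ]
    split_ifs <;> push_cast <;> ring
  have t2 : ∀ r, (dig r ((T ^ (2 * nn i j)) x) : ZMod 3) = (dig r x : ZMod 3) + 2 * δ r := by
    intro r
    rw [s2 r]
    simp only [hδ]
    split_ifs <;> push_cast <;> ring
  have key : FK dig W K ((T ^ nn i j) x) - FK dig W K x +
      (FK dig W K ((T ^ (2 * nn i j)) x) - FK dig W K x) =
      ∑ a ∈ Finset.range K, ∑ b ∈ Finset.range K, 2 * (W a b * (δ a * δ b)) := by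
    unfold FK
    rw [← Finset.sum_sub_distrib, ← Finset.sum_sub_distrib, ← Finset.sum_add_distrib]
    refine Finset.sum_congr rfl fun a _ => ?_
    rw [← Finset.sum_sub_distrib, ← Finset.sum_sub_distrib, ← Finset.sum_add_distrib]
    refine Finset.sum_congr rfl fun b _ => ?_
    rw [t1 a, t1 b, t2 a, t2 b]
    linear_combination (W a b * (δ a * (dig b x : ZMod 3) + δ b * (dig a x : ZMod 3) + δ a * δ b)) * h30
  rw [key]
  have w0 : ∀ a b, ¬ a < b → W a b = 0 := fun a b hab => by
    by_contra h; exact hab (h3 a b h)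
  have dv : ∀ r, r ≠ i → r ≠ j → δ r = 0 := by
    intro r hr1 hr2
    simp only [hδ]
    rw [if_neg]
    rintro (h | h)
    · exact hr1 h
    · exact hr2 h
  have di : δ i = 1 := by simp [hδ]
  have dj : δ j = 1 := by simp [hδ]
  rw [Finset.sum_eq_single i]
  · rw [Finset.sum_eq_single j]
    · rw [di, dj]; ring
    · intro b _ hb
      by_cases hbi : b = i
      · subst hbi
        rw [w0 b b (lt_irrefl b)]; ring
      · rw [dv b hbi hb]; ring
    · intro h
      exact absurd (Finset.mem_range.2 hK3) h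
  · intro a _ ha
    refine Finset.sum_eq_zero fun b _ => ?_
    by_cases haj : a = j
    · subst haj
      by_cases hb : b = i ∨ b = a
      · have : W a b = 0 := by
          apply w0
          rcases hb with h | h
          · omega
          · omega
        rw [this]; ring
      · rw [not_or] at hb
        rw [dv b hb.1 hb.2]; ring
    · rw [dv a ha haj]; ring
  · intro h
    exact absurd (Finset.mem_range.2 (hij.trans hK3)) h

end Pool.Agent.U2.MC
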